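import Pool.Agent.Lib.MP_627a61_nt.Hy.GStm

/-!
# HYP, commutative algebra: RAD and FIN
-/

set_option autoImplicit false

open MvPolynomial Filter

namespace Pool.Agent.Lib.MP_627a61_nt.Hy

universe u v

theorem p_RAD : S_RAD.{u} := by
  intro ι _ k _ S Q h
  have h0 : Q ∈ (Ideal.span S).radical := by
    rw [Ideal.radical_eq_sInf, Ideal.mem_sInf]
    rintro J ⟨hJ, hp⟩
    by_contra hQ
    have hdom : IsDomain (MvPolynomial ι k ⧸ J) := Ideal.Quotient.isDomain J
    let Ω : Type u := FractionRing (MvPolynomial ι k ⧸ J)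
    let g : MvPolynomial ι k →+* Ω :=
      (algebraMap (MvPolynomial ι k ⧸ J) Ω).comp (Ideal.Quotient.mk J)
    let τ : k →+* Ω := g.comp C
    have hg : ∀ P : MvPolynomial ι k, P.eval₂ τ (fun i => g (X i)) = g P := by
      intro P
      have h1 : (eval₂Hom τ fun i => g (X i)) = g := by
        apply MvPolynomial.ringHom_ext
        · intro a
          rw [eval₂Hom_C]
          rfl
        · intro i
          rw [eval₂Hom_X']
      exact congrArg (fun f : MvPolynomial ι k →+* Ω => f P) h1
    have h2 : g Q = 0 := by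
      rw [← hg]
      apply h Ω τ
      intro P hP
      rw [hg]
      show algebraMap (MvPolynomial ι k ⧸ J) Ω (Ideal.Quotient.mk J P) = 0
      rw [Ideal.Quotient.eq_zero_iff_mem.2 (hJ (Ideal.subset_span hP)), map_zero]
    have h3 : algebraMap (MvPolynomial ι k ⧸ J) Ω (Ideal.Quotient.mk J Q) = 0 := h2
    have h4 : Ideal.Quotient.mk J Q = 0 :=
      (IsFractionRing.injective (MvPolynomial ι k ⧸ J) Ω) (by rw [h3, map_zero])
    exact hQ (Ideal.Quotient.eq_zero_iff_mem.1 h4)
  exact h0

section

attribute [local instance] MvPolynomial.gradedAlgebra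

theorem fin_comp {ι : Type} {k : Type u} [Field k] {F : MvPolynomial ι k} {e : ℕ}
    (hF : F.IsHomogeneous e) (h : MvPolynomial ι k) (n : ℕ) :
    ∃ h' : MvPolynomial ι k, homogeneousComponent n (h * F) = h' * F ∧
      (h' = 0 ∨ (e ≤ n ∧ h'.IsHomogeneous (n - e))) := by
  have hF' : F ∈ homogeneousSubmodule ι k e := hF
  have key : ∀ (i : ℕ) (P : MvPolynomial ι k),
      (DirectSum.decompose (homogeneousSubmodule ι k) P i : MvPolynomial ι k) =
        homogeneousComponent i P := fun i P => decomposition.decompose'_apply P i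
  by_cases hen : e ≤ n
  · refine ⟨homogeneousComponent (n - e) h, ?_, Or.inr ⟨hen, homogeneousComponent_isHomogeneous _ _⟩⟩
    rw [← key, ← key]
    exact DirectSum.coe_decompose_mul_of_right_mem_of_le _ hF' hen
  · refine ⟨0, ?_, Or.inl rfl⟩
    rw [← key, zero_mul]
    exact DirectSum.coe_decompose_mul_of_right_mem_of_not_le _ hF' hen

theorem fin_homog {ι : Type} {k : Type u} [Field k] {S : Set (MvPolynomial ι k)}
    (hS : ∀ P ∈ S, ∃ n, P.IsHomogeneous n) {p : MvPolynomial ι k} (hp : p ∈ Ideal.span S)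
    (n : ℕ) : homogeneousComponent n p ∈ Ideal.span S := by
  refine homogeneousComponent_mem_of_mem (Ideal.homogeneous_span _ _ ?_) hp n
  intro P hP
  obtain ⟨m, hm⟩ := hS P hP
  exact ⟨m, hm⟩

end

/-- Homogeneous elements of large degree are combinations of the `F j`. -/
theorem fin_step {ι κ : Type} [Fintype κ] {k : Type u} [Field k]
    {S : Set (MvPolynomial ι k)} (hS : ∀ P ∈ S, ∃ n, P.IsHomogeneous n)
    {e : ℕ} {F : κ → MvPolynomial ι k} (hF : ∀ j, (F j).IsHomogeneous e)
    {G : MvPolynomial ι k} {n : ℕ} (hG : G.IsHomogeneous n)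
    (hmem : G ∈ Ideal.span (S ∪ Set.range F)) :
    ∃ h : κ → MvPolynomial ι k, (∀ j, h j = 0 ∨ (e ≤ n ∧ (h j).IsHomogeneous (n - e))) ∧
      G - ∑ j, h j * F j ∈ Ideal.span S := by
  rw [Ideal.span_union, Submodule.mem_sup] at hmem
  obtain ⟨s, hs, t, ht, hst⟩ := hmem
  obtain ⟨c, hc⟩ := Ideal.mem_span_range_iff_exists_fun.1 ht
  choose h' h1 h2 using fun j => fin_comp (hF j) (c j) n
  refine ⟨h', h2, ?_⟩
  have h3 : G - ∑ j, h' j * F j = homogeneousComponent n s := by
    have h4 : homogeneousComponent n t = ∑ j, h' j * F j := by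
      rw [← hc, map_sum]
      exact Finset.sum_congr rfl fun j _ => h1 j
    have h5 : homogeneousComponent n G = G := homogeneousComponent_eq_self hG
    rw [← h4, ← h5, ← hst, map_add, add_sub_cancel_right]
  rw [h3]
  exact fin_homog hS hs n

theorem fin_monos {ι : Type} [Fintype ι] {k : Type u} [Field k] {I : Ideal (MvPolynomial ι k)}
    (h : ∀ α, ∃ N : ℕ, (X α : MvPolynomial ι k) ^ N ∈ I) :
    ∃ N : ℕ, ∀ m : ι →₀ ℕ, N ≤ m.degree → monomial m (1 : k) ∈ I := by
  classical
  choose N hN using h
  refine ⟨∑ α, N α + 1, fun m hm => ?_⟩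
  have h1 : ∃ α, N α ≤ m α := by
    by_contra hc
    push Not at hc
    have h2 : m.degree = ∑ α, m α := Finsupp.degree_eq_sum m
    have h3 : ∑ α, m α ≤ ∑ α, N α := Finset.sum_le_sum fun α _ => (hc α).le
    omega
  obtain ⟨α, hα⟩ := h1
  have h4 : monomial m (1 : k) = monomial (m - Finsupp.single α (N α)) 1 * X α ^ N α := by
    rw [X_pow_eq_monomial, monomial_mul, one_mul]
    congr 1
    rw [tsub_add_cancel_of_le]
    intro β
    by_cases hβ : β = α
    · subst hβ
      simpa using hα
    · rw [Finsupp.single_eq_of_ne hβ]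
      exact Nat.zero_le _
  rw [h4]
  exact Ideal.mul_mem_left _ _ (hN α)

theorem p_FIN : S_FIN.{u} := by
  intro ι κ _ _ k _ S hS e he F hF h0 α
  classical
  -- powers of the variables
  have hpow : ∀ α, ∃ N : ℕ, (X α : MvPolynomial ι k) ^ N ∈ Ideal.span (S ∪ Set.range F) := by
    intro α
    apply p_RAD
    intro Ω _ τ x hx
    rw [eval₂_X]
    have h1 := h0 Ω τ x (fun P hP => hx P (Or.inl hP)) (fun j => hx (F j) (Or.inr ⟨j, rfl⟩))
    rw [h1]
    rfl
  obtain ⟨N, hN⟩ := fin_monos hpow
  let φ : MvPolynomial κ k →+* (MvPolynomial ι k ⧸ Ideal.span S) :=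
    (Ideal.Quotient.mk (Ideal.span S)).comp (aeval (R := k) F).toRingHom
  let _ : Algebra (MvPolynomial κ k) (MvPolynomial ι k ⧸ Ideal.span S) := φ.toAlgebra
  have hsmul : ∀ (b : MvPolynomial κ k) (a : MvPolynomial ι k ⧸ Ideal.span S),
      b • a = φ b * a := fun b a => Algebra.smul_def b a
  let T : Set (MvPolynomial ι k ⧸ Ideal.span S) :=
    (fun m : ι →₀ ℕ => Ideal.Quotient.mk (Ideal.span S) (monomial m (1 : k))) ''
      {m | m.degree < N}
  have hTfin : T.Finite := (Finsupp.finite_of_degree_lt N).image _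
  have hC : ∀ (c : k) (a : MvPolynomial ι k), Ideal.Quotient.mk (Ideal.span S) a ∈
      Submodule.span (MvPolynomial κ k) T → Ideal.Quotient.mk (Ideal.span S) (C c * a) ∈
      Submodule.span (MvPolynomial κ k) T := by
    intro c a ha
    have h1 : Ideal.Quotient.mk (Ideal.span S) (C c * a) =
        (C c : MvPolynomial κ k) • Ideal.Quotient.mk (Ideal.span S) a := by
      rw [hsmul, map_mul]
      congr 1
      show Ideal.Quotient.mk (Ideal.span S) (C c) =
        Ideal.Quotient.mk (Ideal.span S) (aeval F (C c))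
      rw [aeval_C]
      rfl
    rw [h1]
    exact Submodule.smul_mem _ _ ha
  have hmon : ∀ (G : MvPolynomial ι k), (∀ m ∈ G.support, Ideal.Quotient.mk (Ideal.span S)
      (monomial m (1 : k)) ∈ Submodule.span (MvPolynomial κ k) T) →
      Ideal.Quotient.mk (Ideal.span S) G ∈ Submodule.span (MvPolynomial κ k) T := by
    intro G hG
    have h1 : G = ∑ m ∈ G.support, C (coeff m G) * monomial m 1 := by
      conv_lhs => rw [G.as_sum]
      refine Finset.sum_congr rfl fun m _ => ?_
      rw [C_mul_monomial, mul_one]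
    rw [h1, map_sum]
    exact Submodule.sum_mem _ fun m hm => hC _ _ (hG m hm)
  have main : ∀ (n : ℕ) (G : MvPolynomial ι k), G.IsHomogeneous n →
      Ideal.Quotient.mk (Ideal.span S) G ∈ Submodule.span (MvPolynomial κ k) T := by
    intro n
    induction n using Nat.strong_induction_on with
    | _ n ih =>
    intro G hG
    by_cases hn : n < N
    · refine hmon G fun m hm => Submodule.subset_span ⟨m, ?_, rfl⟩
      have h1 : m.degree = n := by
        exact (hG.degree_eq_sum_deg_support hm).symm
      show m.degree < N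
      omega
    · have hmem : G ∈ Ideal.span (S ∪ Set.range F) := by
        rw [G.as_sum]
        refine Ideal.sum_mem _ fun m hm => ?_
        have h1 : m.degree = n := by
          exact (hG.degree_eq_sum_deg_support hm).symm
        have h2 : monomial m (coeff m G) = C (coeff m G) * monomial m 1 := by
          rw [C_mul_monomial, mul_one]
        rw [h2]
        exact Ideal.mul_mem_left _ _ (hN m (by omega))
      obtain ⟨h, h1, h2⟩ := fin_step hS hF hG hmem
      have h3 : Ideal.Quotient.mk (Ideal.span S) G =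
          ∑ j, (X j : MvPolynomial κ k) • Ideal.Quotient.mk (Ideal.span S) (h j) := by
        have h4 := (Ideal.Quotient.mk_eq_mk_iff_sub_mem _ _).2 h2
        rw [h4, map_sum]
        refine Finset.sum_congr rfl fun j _ => ?_
        rw [hsmul, map_mul, mul_comm]
        congr 1
        show Ideal.Quotient.mk (Ideal.span S) (F j) =
          Ideal.Quotient.mk (Ideal.span S) (aeval F (X j))
        rw [aeval_X]
      rw [h3]
      refine Submodule.sum_mem _ fun j _ => Submodule.smul_mem _ _ ?_
      rcases h1 j with h5 | ⟨h5, h6⟩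
      · rw [h5, map_zero]
        exact Submodule.zero_mem _
      · exact ih (n - e) (by omega) (h j) h6
  have htop : Submodule.span (MvPolynomial κ k) T = ⊤ := by
    rw [eq_top_iff]
    rintro a -
    obtain ⟨G, rfl⟩ := Ideal.Quotient.mk_surjective a
    refine hmon G fun m _ => main m.degree _ ?_
    exact isHomogeneous_monomial _ rfl
  have hfin : Module.Finite (MvPolynomial κ k) (MvPolynomial ι k ⧸ Ideal.span S) :=
    ⟨⟨hTfin.toFinset, by rw [Set.Finite.coe_toFinset]; exact htop⟩⟩
  have hint : IsIntegral (MvPolynomial κ k) (Ideal.Quotient.mk (Ideal.span S) (X α)) :=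
    (Algebra.IsIntegral.of_finite (MvPolynomial κ k)
      (MvPolynomial ι k ⧸ Ideal.span S)).isIntegral _
  obtain ⟨p, hp, hp2⟩ := hint
  have hp3 : p.eval₂ (aeval (R := k) F).toRingHom (X α) ∈ Ideal.span S := by
    rw [← Ideal.Quotient.eq_zero_iff_mem, Polynomial.hom_eval₂]
    exact hp2
  refine ⟨p * Polynomial.X, hp.mul Polynomial.monic_X, ?_, ?_⟩
  · rw [Polynomial.natDegree_mul_X hp.ne_zero]
    omega
  · rw [Polynomial.eval₂_mul]
    exact Ideal.mul_mem_right _ _ hp3

end Pool.Agent.Lib.MP_627a61_nt.Hy
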