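import Pool.Agent.Lib.MP_627a61_nt.Hy.GStm

/-!
# HYP: the image of the cone is closed (IMG)
-/

set_option autoImplicit false

open MvPolynomial

namespace Pool.Agent.Lib.MP_627a61_nt.Hy

universe u v

/-- Extension of a ring homomorphism into an algebraically closed field along an integral
ring homomorphism. -/
private theorem img_lift {R A L : Type*} [CommRing R] [CommRing A] [Field L] [IsAlgClosed L]
    (f : R →+* A) (hf : f.IsIntegral) (g : R →+* L) (h : RingHom.ker f ≤ RingHom.ker g) :
    ∃ φ : A →+* L, ∀ r, φ (f r) = g r := by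
  let : Algebra R A := f.toAlgebra
  have : Algebra.IsIntegral R A := ⟨hf⟩
  have hP : (RingHom.ker g).IsPrime := RingHom.ker_isPrime g
  obtain ⟨Q, -, hQ, hQP⟩ := Ideal.exists_ideal_over_prime_of_isIntegral (R := R) (S := A)
    (RingHom.ker g) ⊥ (by
      rw [← RingHom.ker_eq_comap_bot]
      exact h)
  have : Q.LiesOver (RingHom.ker g) := ⟨hQP.symm⟩
  let : Algebra (R ⧸ RingHom.ker g) L := (RingHom.kerLift g).toAlgebra
  have hi : Function.Injective (algebraMap (R ⧸ RingHom.ker g) L) :=
    RingHom.kerLift_injective g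
  have : FaithfulSMul (R ⧸ RingHom.ker g) L :=
    (faithfulSMul_iff_algebraMap_injective _ _).2 hi
  have : IsDomain (R ⧸ RingHom.ker g) := Ideal.Quotient.isDomain _
  have : IsDomain (A ⧸ Q) := Ideal.Quotient.isDomain _
  let l : (A ⧸ Q) →ₐ[R ⧸ RingHom.ker g] L := IsAlgClosed.lift
  refine ⟨l.toRingHom.comp (Ideal.Quotient.mk Q), fun r => ?_⟩
  have h1 : Ideal.Quotient.mk Q (f r) =
      algebraMap (R ⧸ RingHom.ker g) (A ⧸ Q) (Ideal.Quotient.mk _ r) := rfl
  change l (Ideal.Quotient.mk Q (f r)) = g r
  rw [h1, l.commutes]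
  rfl

section
variable {ι κ : Type} {k : Type u} [Field k]

attribute [local instance] MvPolynomial.gradedAlgebra

private theorem img_comp_mem (S : Set (MvPolynomial ι k)) (hS : ∀ P ∈ S, ∃ n, P.IsHomogeneous n)
    {p : MvPolynomial ι k} (hp : p ∈ Ideal.span S) (n : ℕ) :
    homogeneousComponent n p ∈ Ideal.span S := by
  refine homogeneousComponent_mem_of_mem ?_ hp n
  refine Ideal.homogeneous_span _ _ fun x hx => ?_
  obtain ⟨n, hn⟩ := hS x hx
  exact ⟨n, hn⟩

private theorem img_comp_aeval {e : ℕ} (he : 1 ≤ e) (F : κ → MvPolynomial ι k)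
    (hF : ∀ j, (F j).IsHomogeneous e) (Q : MvPolynomial κ k) (n : ℕ) :
    homogeneousComponent (e * n) (aeval F Q) = aeval F (homogeneousComponent n Q) := by
  have key : ∀ i, homogeneousComponent (e * n) (aeval F (homogeneousComponent i Q)) =
      if i = n then aeval F (homogeneousComponent n Q) else 0 := by
    intro i
    have h := (homogeneousComponent_isHomogeneous i Q).aeval F hF
    rw [homogeneousComponent_of_mem h]
    by_cases hi : i = n
    · subst hi
      simp
    · rw [if_neg hi, if_neg]
      intro h'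
      exact hi (Nat.eq_of_mul_eq_mul_left (by omega) h').symm
  conv_lhs => rw [← sum_homogeneousComponent Q]
  rw [map_sum, map_sum, Finset.sum_congr rfl fun i _ => key i, Finset.sum_ite_eq']
  split_ifs with hn
  · rfl
  · rw [homogeneousComponent_eq_zero n Q (by simpa using hn), map_zero]

end

/-- IMG -/
theorem p_IMG : S_RAD.{u} → S_FIN.{u} → S_IMG.{u, v} := by
  intro _ hFIN ι κ _ _ k _ S hS e he F hF hcone L _ _ τ y hy
  -- the ring homomorphism `k[y] → k[X]/(S)`
  let f : MvPolynomial κ k →+* MvPolynomial ι k ⧸ Ideal.span S :=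
    (Ideal.Quotient.mk (Ideal.span S)).comp (aeval (R := k) F).toRingHom
  have hfX : ∀ α, f.IsIntegralElem (Ideal.Quotient.mk (Ideal.span S) (X α)) := by
    intro α
    obtain ⟨p, hp, -, h0⟩ := hFIN S hS e he F hF hcone α
    refine ⟨p, hp, ?_⟩
    have h1 := Polynomial.hom_eval₂ p (aeval (R := k) F).toRingHom
      (Ideal.Quotient.mk (Ideal.span S)) (X α)
    rw [← h1]
    exact Ideal.Quotient.eq_zero_iff_mem.2 h0
  have hf : f.IsIntegral := by
    intro a
    obtain ⟨q, rfl⟩ := Ideal.Quotient.mk_surjective a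
    induction q using MvPolynomial.induction_on with
    | C c =>
      have h1 : Ideal.Quotient.mk (Ideal.span S) (C c) = f (C c) := by
        simp [f, MvPolynomial.algebraMap_eq]
      rw [h1]
      exact f.isIntegralElem_map
    | add p q hp hq =>
      rw [map_add]
      exact hp.add f hq
    | mul_X p α hp =>
      rw [map_mul]
      exact hp.mul f (hfX α)
  have hker : RingHom.ker f ≤ RingHom.ker (eval₂Hom τ y) := by
    intro Q hQ
    rw [RingHom.mem_ker] at hQ ⊢
    have hQ' : aeval F Q ∈ Ideal.span S := Ideal.Quotient.eq_zero_iff_mem.1 hQ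
    rw [← sum_homogeneousComponent Q, map_sum]
    refine Finset.sum_eq_zero fun n _ => ?_
    refine hy _ ⟨⟨n, homogeneousComponent_isHomogeneous n Q⟩, ?_⟩
    intro Ω _ σ x hx
    have h1 : aeval F (homogeneousComponent n Q) ∈ Ideal.span S := by
      rw [← img_comp_aeval he F hF]
      exact img_comp_mem S hS hQ' _
    have h2 : Ideal.span S ≤ RingHom.ker (eval₂Hom σ x) := by
      rw [Ideal.span_le]
      intro P hP
      exact hx P hP
    have h3 : eval₂Hom σ x (aeval F (homogeneousComponent n Q)) = 0 := h2 h1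
    rw [← h3]
    have h4 : ∀ q : MvPolynomial κ k, eval₂ σ (fun j => (F j).eval₂ σ x) q =
        eval₂Hom σ x (aeval F q) := by
      intro q
      induction q using MvPolynomial.induction_on with
      | C c => simp [MvPolynomial.algebraMap_eq]
      | add p q hp hq => rw [eval₂_add, hp, hq, map_add, map_add]
      | mul_X p j hp => rw [eval₂_mul, hp, eval₂_X, map_mul, map_mul, aeval_X]; rfl
    exact h4 _
  obtain ⟨φ, hφ⟩ := img_lift f hf (eval₂Hom τ y) hker
  have hφC : ∀ c, φ (Ideal.Quotient.mk (Ideal.span S) (C c)) = τ c := by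
    intro c
    have h1 : Ideal.Quotient.mk (Ideal.span S) (C c) = f (C c) := by
      simp [f, MvPolynomial.algebraMap_eq]
    rw [h1, hφ]
    simp
  have hφe : ∀ q : MvPolynomial ι k, φ (Ideal.Quotient.mk (Ideal.span S) q) =
      eval₂ τ (fun α => φ (Ideal.Quotient.mk (Ideal.span S) (X α))) q := by
    intro q
    induction q using MvPolynomial.induction_on with
    | C c => rw [hφC, eval₂_C]
    | add p q hp hq => rw [map_add, map_add, hp, hq, eval₂_add]
    | mul_X p α hp => rw [map_mul, map_mul, hp, eval₂_mul, eval₂_X]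
  refine ⟨fun α => φ (Ideal.Quotient.mk (Ideal.span S) (X α)), ?_, ?_⟩
  · intro P hP
    rw [← hφe, Ideal.Quotient.eq_zero_iff_mem.2 (Ideal.subset_span hP), map_zero]
  · intro j
    rw [← hφe]
    have h1 : Ideal.Quotient.mk (Ideal.span S) (F j) = f (X j) := by
      simp [f]
    rw [h1, hφ]
    simp

end Pool.Agent.Lib.MP_627a61_nt.Hy
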