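import Pool.Agent.Lib.MP_627a61_nt.Hy.GStm

/-!
# HYP, commutative algebra: INT
-/

set_option autoImplicit false

open MvPolynomial Filter

namespace Pool.Agent.Lib.MP_627a61_nt.Hy

universe u v

section

attribute [local instance] MvPolynomial.gradedAlgebra

private theorem int_homog {ι : Type} {k : Type u} [Field k] {S : Set (MvPolynomial ι k)}
    (hS : ∀ P ∈ S, ∃ n, P.IsHomogeneous n) {p : MvPolynomial ι k} (hp : p ∈ Ideal.span S)
    (n : ℕ) : homogeneousComponent n p ∈ Ideal.span S := by
  refine homogeneousComponent_mem_of_mem (Ideal.homogeneous_span _ _ ?_) hp n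
  intro P hP
  obtain ⟨m, hm⟩ := hS P hP
  exact ⟨m, hm⟩

end

/-- the component of degree `d` of `aeval F Q * X α ^ j` for linear forms `F` -/
private theorem int_comp {ι κ : Type} {k : Type u} [Field k] (F : κ → MvPolynomial ι k)
    (hF : ∀ j, (F j).IsHomogeneous 1) (Q : MvPolynomial κ k) (α : ι) (d j : ℕ) (hj : j ≤ d) :
    homogeneousComponent d (aeval F Q * X α ^ j) =
      aeval F (homogeneousComponent (d - j) Q) * X α ^ j := by
  have h1 : ∀ i, (aeval F (homogeneousComponent i Q) * X α ^ j :
      MvPolynomial ι k).IsHomogeneous (i + j) := by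
    intro i
    have h2 := (homogeneousComponent_isHomogeneous i Q).aeval F hF
    rw [one_mul] at h2
    exact h2.mul (isHomogeneous_X_pow α j)
  have h3 : aeval F Q * X α ^ j =
      ∑ i ∈ Finset.range (Q.totalDegree + 1 + d),
        aeval F (homogeneousComponent i Q) * X α ^ j := by
    have h5 : ∑ i ∈ Finset.range (Q.totalDegree + 1 + d), homogeneousComponent i Q = Q := by
      have h6 := Finset.sum_subset (f := fun i => homogeneousComponent i Q)
        (Finset.range_mono (Nat.le_add_right (Q.totalDegree + 1) d)) (by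
          intro i _ hi
          apply homogeneousComponent_eq_zero
          rw [Finset.mem_range, not_lt] at hi
          omega)
      rw [← h6]
      exact sum_homogeneousComponent Q
    rw [← Finset.sum_mul, ← map_sum, h5]
  rw [h3, map_sum, Finset.sum_eq_single (d - j)]
  · have h4 := h1 (d - j)
    rw [Nat.sub_add_cancel hj] at h4
    exact homogeneousComponent_eq_self h4
  · intro i _ hi
    rw [homogeneousComponent_of_mem (h1 i), if_neg (by omega)]
  · intro h
    exfalso
    apply h
    rw [Finset.mem_range]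
    omega

theorem p_INT : S_RAD.{u} → S_FIN.{u} → S_INT.{u, v} := by
  intro _ hfin ι _ k _ m S hS l hl
  classical
  let F : Fin (m + 1) → MvPolynomial ι k := fun i => ∑ j, C (l i j) * X j
  have hF : ∀ i, (F i).IsHomogeneous 1 := by
    intro i
    apply IsHomogeneous.sum
    intro j _
    exact isHomogeneous_C_mul_X _ _
  have hFe : ∀ {L : Type u} [Field L] (τ : k →+* L) (x : ι → L) (i : Fin (m + 1)),
      (F i).eval₂ τ x = dot (τ ∘ l i) x := by
    intro L _ τ x i
    show eval₂ τ x (∑ j, C (l i j) * X j) = _
    rw [eval₂_sum]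
    refine Finset.sum_congr rfl fun j _ => ?_
    rw [eval₂_mul, eval₂_C, eval₂_X]
    rfl
  have hFe' : ∀ {L : Type v} [Field L] (τ : k →+* L) (x : ι → L) (i : Fin (m + 1)),
      (F i).eval₂ τ x = dot (τ ∘ l i) x := by
    intro L _ τ x i
    show eval₂ τ x (∑ j, C (l i j) * X j) = _
    rw [eval₂_sum]
    refine Finset.sum_congr rfl fun j _ => ?_
    rw [eval₂_mul, eval₂_C, eval₂_X]
    rfl
  have h1 : ∀ α, ∃ p : Polynomial (MvPolynomial (Fin (m + 1)) k), p.Monic ∧ 1 ≤ p.natDegree ∧
      p.eval₂ (aeval (R := k) F).toRingHom (X α) ∈ Ideal.span S := by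
    apply hfin S hS 1 le_rfl F hF
    intro Ω _ τ x hx h0
    apply hl Ω τ x hx
    intro i
    rw [← hFe]
    exact h0 i
  choose p hp1 hp2 hp3 using h1
  let d : ι → ℕ := fun α => (p α).natDegree
  let P : ι → Polynomial (MvPolynomial (Fin (m + 1)) k) := fun α =>
    ∑ j ∈ Finset.range (d α + 1),
      Polynomial.monomial j (homogeneousComponent (d α - j) ((p α).coeff j))
  have hco : ∀ α j, (P α).coeff j =
      if j ≤ d α then homogeneousComponent (d α - j) ((p α).coeff j) else 0 := by
    intro α j
    show (∑ j ∈ Finset.range (d α + 1),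
      Polynomial.monomial j (homogeneousComponent (d α - j) ((p α).coeff j))).coeff j = _
    rw [Polynomial.finsetSum_coeff]
    simp only [Polynomial.coeff_monomial]
    rw [Finset.sum_ite_eq' (Finset.range (d α + 1)) j]
    simp only [Finset.mem_range, Nat.lt_succ_iff]
  have hdeg : ∀ α, (P α).natDegree ≤ d α := by
    intro α
    rw [Polynomial.natDegree_le_iff_coeff_eq_zero]
    intro j hj
    rw [hco, if_neg (by omega)]
  have hlead : ∀ α, (P α).coeff (d α) = 1 := by
    intro α
    rw [hco, if_pos le_rfl, Nat.sub_self]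
    have h2 : (p α).coeff (d α) = 1 := hp1 α
    rw [h2, homogeneousComponent_zero, coeff_one]
    simp
  have hmon : ∀ α, (P α).Monic := fun α =>
    Polynomial.monic_of_natDegree_le_of_coeff_eq_one (d α) (hdeg α) (hlead α)
  have hnat : ∀ α, (P α).natDegree = d α := by
    intro α
    apply le_antisymm (hdeg α)
    apply Polynomial.le_natDegree_of_ne_zero
    rw [hlead]
    exact one_ne_zero
  have hmem : ∀ α, (P α).eval₂ (aeval (R := k) F).toRingHom (X α) ∈ Ideal.span S := by
    intro α
    have h2 : (P α).eval₂ (aeval (R := k) F).toRingHom (X α) =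
        homogeneousComponent (d α) ((p α).eval₂ (aeval (R := k) F).toRingHom (X α)) := by
      rw [Polynomial.eval₂_eq_sum_range' _ (Nat.lt_succ_of_le (hdeg α)),
        Polynomial.eval₂_eq_sum_range, map_sum]
      refine Finset.sum_congr rfl fun j hj => ?_
      have hj' : j ≤ d α := Nat.lt_succ_iff.1 (Finset.mem_range.1 hj)
      rw [hco, if_pos hj']
      exact (int_comp F hF ((p α).coeff j) α (d α) j hj').symm
    rw [h2]
    exact int_homog hS (hp3 α) (d α)
  refine ⟨d, P, fun α => ⟨⟨hmon α, hnat α, hp2 α, ?_⟩, ?_⟩⟩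
  · intro j hj
    rw [hco, if_pos hj]
    exact homogeneousComponent_isHomogeneous _ _
  · intro L _ τ x hx
    let g : MvPolynomial ι k →+* L := eval₂Hom τ x
    have hg : ∀ Q ∈ Ideal.span S, g Q = 0 := by
      intro Q hQ
      have h3 : Ideal.span S ≤ RingHom.ker g := by
        rw [Ideal.span_le]
        intro R hR
        exact hx R hR
      exact h3 hQ
    have hcomp : g.comp (aeval (R := k) F).toRingHom =
        eval₂Hom τ (fun i => dot (τ ∘ l i) x) := by
      apply MvPolynomial.ringHom_ext
      · intro a
        rw [RingHom.comp_apply, eval₂Hom_C]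
        show g (aeval F (C a)) = τ a
        rw [aeval_C]
        show eval₂ τ x (C a) = τ a
        rw [eval₂_C]
      · intro i
        rw [RingHom.comp_apply, eval₂Hom_X']
        show g (aeval F (X i)) = _
        rw [aeval_X]
        exact hFe' τ x i
    have h4 := hg _ (hmem α)
    rw [Polynomial.hom_eval₂, hcomp] at h4
    have h5 : g (X α) = x α := eval₂Hom_X' τ x α
    rw [h5] at h4
    exact h4

end Pool.Agent.Lib.MP_627a61_nt.Hy
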