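import Pool.Agent.Lib.MP_627a61_nt.Hy.Pt

/-!
# HYP: the image of a variety of dimension at most `m` in `P^(m+1)` is proper (PROP)
-/

set_option autoImplicit false

open MvPolynomial

namespace Pool.Agent.Lib.MP_627a61_nt.Hy

universe u v

section
variable {ι κ : Type} {k : Type u} [Field k]

attribute [local instance] MvPolynomial.gradedAlgebra

private theorem prop_comp_mem (S : Set (MvPolynomial ι k)) (hS : ∀ P ∈ S, ∃ n, P.IsHomogeneous n)
    {p : MvPolynomial ι k} (hp : p ∈ Ideal.span S) (n : ℕ) :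
    homogeneousComponent n p ∈ Ideal.span S := by
  refine homogeneousComponent_mem_of_mem ?_ hp n
  refine Ideal.homogeneous_span _ _ fun x hx => ?_
  obtain ⟨n, hn⟩ := hS x hx
  exact ⟨n, hn⟩

private theorem prop_comp_aeval {e : ℕ} (he : 1 ≤ e) (F : κ → MvPolynomial ι k)
    (hF : ∀ j, (F j).IsHomogeneous e) (Q : MvPolynomial κ k) (n : ℕ) :
    homogeneousComponent (e * n) (aeval F Q) = aeval F (homogeneousComponent n Q) := by
  have key : ∀ i, homogeneousComponent (e * n) (aeval F (homogeneousComponent i Q)) =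
      if i = n then aeval F (homogeneousComponent n Q) else 0 := by
    intro i
    have h := (homogeneousComponent_isHomogeneous i Q).aeval F hF
    rw [homogeneousComponent_of_mem h]
    by_cases hi : i = n
    · subst hi
      simp
    · rw [if_neg hi, if_neg]
      intro h'
      exact hi (Nat.eq_of_mul_eq_mul_left (by omega) h').symm
  conv_lhs => rw [← sum_homogeneousComponent Q]
  rw [map_sum, map_sum, Finset.sum_congr rfl fun i _ => key i, Finset.sum_ite_eq']
  split_ifs with hn
  · rfl
  · rw [homogeneousComponent_eq_zero n Q (by simpa using hn), map_zero]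

end

private theorem prop_zero {ι κ : Type} [Fintype ι] [Fintype κ] {k : Type u} [Field k]
    (S : Set (MvPolynomial ι k)) (F : κ → MvPolynomial ι k) (hF : ∀ j, (F j).IsHomogeneous 0)
    (hκ : 1 < Fintype.card κ) : ∃ Q ∈ ImgEqs S F, Q ≠ 0 := by
  classical
  obtain ⟨j₁, j₂, hne⟩ := Fintype.one_lt_card_iff.1 hκ
  have hc : ∀ j, F j = C (coeff 0 (F j)) := by
    intro j
    rw [← totalDegree_eq_zero_iff_eq_C]
    exact Nat.le_zero.1 (hF j).totalDegree_le
  by_cases h0 : coeff 0 (F j₁) = 0
  · refine ⟨X j₁, ⟨⟨1, isHomogeneous_X k j₁⟩, ?_⟩, X_ne_zero j₁⟩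
    intro Ω _ τ x _
    rw [eval₂_X, hc j₁, h0, map_zero, eval₂_zero]
  · refine ⟨C (coeff 0 (F j₁)) * X j₂ - C (coeff 0 (F j₂)) * X j₁, ⟨⟨1, ?_⟩, ?_⟩, ?_⟩
    · have h1 : ∀ (c : k) (j : κ), (C c * X j : MvPolynomial κ k).IsHomogeneous 1 := by
        intro c j
        have := (isHomogeneous_C κ c).mul (isHomogeneous_X k j)
        rwa [zero_add] at this
      exact (h1 _ _).sub (h1 _ _)
    · intro Ω _ τ x _
      rw [eval₂_sub, eval₂_mul, eval₂_mul, eval₂_X, eval₂_X, eval₂_C, eval₂_C]
      rw [hc j₁, hc j₂, eval₂_C, eval₂_C, coeff_C, coeff_C, if_pos rfl, if_pos rfl]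
      ring
    · intro h1
      have h2 := congrArg (coeff (Finsupp.single j₂ 1)) h1
      have h3 : ¬ (Finsupp.single j₁ 1 : κ →₀ ℕ) = Finsupp.single j₂ 1 := fun h3 =>
        hne (Finsupp.single_left_injective one_ne_zero h3)
      rw [coeff_sub, coeff_C_mul, coeff_C_mul, coeff_X', coeff_X', if_pos rfl, if_neg h3,
        mul_one, mul_zero, sub_zero, coeff_zero] at h2
      exact h0 h2

theorem p_PROP (hINT : S_INT.{u, u}) : S_PROP.{u} := by
  classical
  intro ι κ _ _ k _ m S hS l hl e F hF hκ
  rcases Nat.eq_zero_or_pos e with rfl | he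
  · exact prop_zero S F hF (by omega)
  by_contra hcon
  push Not at hcon
  obtain ⟨d, P, hP⟩ := hINT S hS l hl
  let M : Submonoid (MvPolynomial ι k) :=
    Submonoid.map (aeval F : MvPolynomial κ k →ₐ[k] MvPolynomial ι k)
      (nonZeroDivisors (MvPolynomial κ k))
  have hdisj : Disjoint (Ideal.span S : Set (MvPolynomial ι k)) M := by
    rw [Set.disjoint_left]
    rintro q hq ⟨Q, hQ, rfl⟩
    have hQ0 : Q ≠ 0 := nonZeroDivisors.ne_zero hQ
    obtain ⟨n, hn⟩ : ∃ n, homogeneousComponent n Q ≠ 0 := by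
      by_contra hn
      push Not at hn
      apply hQ0
      rw [← sum_homogeneousComponent Q]
      exact Finset.sum_eq_zero fun i _ => hn i
    apply hn
    apply hcon
    refine ⟨⟨n, homogeneousComponent_isHomogeneous n Q⟩, ?_⟩
    intro Ω _ τ x hx
    have h1 : aeval F (homogeneousComponent n Q) ∈ Ideal.span S := by
      rw [← prop_comp_aeval he F hF Q n]
      exact prop_comp_mem S hS hq _
    have h2 : ∀ q ∈ Ideal.span S, q.eval₂ τ x = 0 := by
      intro q hq
      induction hq using Submodule.span_induction with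
      | mem q hq => exact hx q hq
      | zero => exact eval₂_zero _ _
      | add a b _ _ ha hb => rw [eval₂_add, ha, hb, add_zero]
      | smul a b _ hb => rw [smul_eq_mul, eval₂_mul, hb, mul_zero]
    have h3 := h2 _ h1
    have h4 : (aeval F (homogeneousComponent n Q) : MvPolynomial ι k).eval₂ τ x =
        (homogeneousComponent n Q).eval₂ τ (fun j => (F j).eval₂ τ x) := by
      have h5 := eval₂_comp_left (eval₂Hom τ x) C F (homogeneousComponent n Q)
      rw [aeval_def, algebraMap_eq]
      rw [coe_eval₂Hom] at h5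
      rw [h5]
      congr 1
      ext c
      simp
    rw [h4] at h3
    exact h3
  obtain ⟨p, hp, hIp, hpM⟩ := Ideal.exists_le_prime_disjoint _ M hdisj
  have hdom : IsDomain (MvPolynomial ι k ⧸ p) := Ideal.Quotient.isDomain p
  let Ω : Type u := FractionRing (MvPolynomial ι k ⧸ p)
  let f : MvPolynomial ι k →+* Ω := (algebraMap (MvPolynomial ι k ⧸ p) Ω).comp
    (Ideal.Quotient.mk p)
  let _ : Algebra k Ω := (f.comp C).toAlgebra
  have halg : algebraMap k Ω = f.comp C := rfl
  let x : ι → Ω := fun α => f (X α)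
  have hf : ∀ q : MvPolynomial ι k, q.eval₂ (algebraMap k Ω) x = f q := by
    intro q
    have h1 := eval₂_comp_left f C X q
    rw [eval₂_eta] at h1
    rw [halg, h1]
    rfl
  have hfp : ∀ q, f q = 0 ↔ q ∈ p := by
    intro q
    rw [← Ideal.Quotient.eq_zero_iff_mem]
    exact (injective_iff_map_eq_zero' _).1 (IsFractionRing.injective (MvPolynomial ι k ⧸ p) Ω) _
  have hx : InCone (algebraMap k Ω) S x := by
    intro q hq
    rw [hf, hfp]
    exact hIp (Ideal.subset_span hq)
  let y : κ → Ω := fun j => (F j).eval₂ (algebraMap k Ω) x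
  have hind : AlgebraicIndependent k y := by
    rw [algebraicIndependent_iff]
    intro Q hQ
    by_contra hQ0
    have h1 : f (aeval F Q) = 0 := by
      rw [← hQ, aeval_def, aeval_def, algebraMap_eq, halg]
      have h2 := eval₂_comp_left f C F Q
      rw [h2]
      congr 1
      funext j
      exact (hf (F j)).symm
    rw [hfp] at h1
    exact Set.disjoint_left.1 hpM h1 ⟨Q, mem_nonZeroDivisors_of_ne_zero hQ0, rfl⟩
  let G : Set Ω := Set.range fun i : Fin (m + 1) => dot (algebraMap k Ω ∘ l i) x
  have hxG : ∀ α, x α ∈ cl k G := coord_mem_cl (fun α => (hP α).1)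
    (fun α => (hP α).2 Ω (algebraMap k Ω) x hx) fun i => subset_cl _ ⟨i, rfl⟩
  have hcard := card_le_of_subset_cl hind (G := G) (Set.finite_range _) (by
    rintro _ ⟨j, rfl⟩
    exact eval₂_mem_cl (F j) hxG)
  have hG : G.ncard ≤ m + 1 := by
    have h1 : G = (fun i : Fin (m + 1) => dot (algebraMap k Ω ∘ l i) x) '' Set.univ :=
      Set.image_univ.symm
    rw [h1]
    refine le_trans Set.ncard_image_le ?_
    rw [Set.ncard_univ, Nat.card_eq_fintype_card, Fintype.card_fin]
  omega

end Pool.Agent.Lib.MP_627a61_nt.Hy
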