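import Pool.Agent.Lib.MP_627a61_nt.Hy.GStm

/-! HYP, piece POW: powers of distinct linear forms are linearly independent modulo constants. -/

set_option autoImplicit false

namespace Pool.Agent.Lib.MP_627a61_nt.Hy

universe u

theorem p_POW : S_POW.{u} := by
  intro Ω _ _ α A e hA c r hr c₀ h a ha
  have key : ∀ i : ℕ, i < A.card → ∑ b ∈ A, c b * r b ^ i = 0 := by
    intro i hi
    have h1 := congrArg (fun p => Polynomial.coeff p (e - i)) h
    have hne : e - i ≠ 0 := by omega
    have hsub : e - (e - i) = i := by omega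
    simp only [Polynomial.coeff_add, Polynomial.finsetSum_coeff, Polynomial.coeff_C_mul,
      Polynomial.coeff_X_add_C_pow, Polynomial.coeff_C, if_neg hne, add_zero,
      Polynomial.coeff_zero, hsub] at h1
    have hch : ((e.choose (e - i) : ℕ) : Ω) ≠ 0 :=
      Nat.cast_ne_zero.mpr (Nat.choose_pos (Nat.sub_le e i)).ne'
    have h2 : (∑ b ∈ A, c b * r b ^ i) * ((e.choose (e - i) : ℕ) : Ω) = 0 := by
      rw [← h1, Finset.sum_mul]
      exact Finset.sum_congr rfl fun b _ => by ring
    exact (mul_eq_zero.mp h2).resolve_right hch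
  let ε : Fin A.card ≃ A := A.equivFin.symm
  have hinj : Function.Injective fun j : Fin A.card => r (ε j : α) := by
    intro j j' hj
    exact ε.injective (Subtype.ext (hr (ε j).2 (ε j').2 hj))
  have hz := Matrix.eq_zero_of_forall_pow_sum_mul_pow_eq_zero
    (v := fun j : Fin A.card => c (ε j : α)) hinj (by
      intro i
      have h3 := key i i.2
      rw [← Finset.sum_coe_sort A (fun b => c b * r b ^ (i : ℕ)),
        ← Equiv.sum_comp ε (fun b : A => c b * r b ^ (i : ℕ))] at h3
      exact h3)
  have := congrFun hz (ε.symm ⟨a, ha⟩)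
  simpa using this

end Pool.Agent.Lib.MP_627a61_nt.Hy
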